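import Pool.Agent.N939.ME.Main

/-!
# The central limit theorem under the two-sided square root conditions

`Q` is a Markov kernel on a measurable space `S` with invariant probability `ν`, ergodic (`Q h = h`
only for constants), `f ∈ L²(ν)` lies in the ranges of `√(I-Q)` and of `√(I-Q*)`.  Then for every
stationary Markov chain `ξ` indexed by `ℤ` with kernel `Q` and marginal law `ν`, with
`S_n = f(ξ_1) + ⋯ + f(ξ_n)`, `E S_n²/n` converges to a number `v` and `S_n/√n` converges in law to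
the normal law `N(0,v)`.
-/

set_option autoImplicit false

namespace Pool.Agent.Results.MP_cd27db_pr.TwoSidedSquareRootCLT

open MeasureTheory ProbabilityTheory Filter Topology

theorem result :
  ∀ (S : Type) [mS : MeasurableSpace S] (Q : Kernel S S) [IsMarkovKernel Q]
    (ν : Measure S) [IsProbabilityMeasure ν], ν.bind Q = ν →
    (∀ h : S → ℝ, Measurable h → MemLp h 2 ν → (∀ᵐ x ∂ν, ∫ y, h y ∂(Q x) = h x) →
      ∃ c : ℝ, ∀ᵐ x ∂ν, h x = c) →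
    ∀ δ : ℕ → ℝ,
    (∀ x : ℝ, |x| < 1 → HasSum (fun n => δ n * x ^ (n + 1)) (1 - Real.sqrt (1 - x))) →
    ∀ f : S → ℝ, Measurable f → MemLp f 2 ν →
    (∃ g : ℕ → S → ℝ, (∀ n, Measurable (g n) ∧ MemLp (g n) 2 ν) ∧
      (∀ n, ∀ᵐ x ∂ν, g (n + 1) x = ∫ y, g n y ∂(Q x)) ∧
      Tendsto (fun N : ℕ => ∫ x, (g 0 x - ∑ n ∈ Finset.range N, δ n * g (n + 1) x - f x) ^ 2 ∂ν)
        atTop (𝓝 0)) →
    (∃ b : ℕ → S → ℝ, (∀ n, Measurable (b n) ∧ MemLp (b n) 2 ν) ∧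
      (∀ n, ∀ h : S → ℝ, Measurable h → MemLp h 2 ν →
        ∫ x, b (n + 1) x * h x ∂ν = ∫ x, b n x * (∫ y, h y ∂(Q x)) ∂ν) ∧
      Tendsto (fun N : ℕ => ∫ x, (b 0 x - ∑ n ∈ Finset.range N, δ n * b (n + 1) x - f x) ^ 2 ∂ν)
        atTop (𝓝 0)) →
    ∃ v : NNReal, ∀ (Ω : Type) [mΩ : MeasurableSpace Ω] (μ : Measure Ω)
      [IsProbabilityMeasure μ] (ξ : ℤ → Ω → S),
      (∀ i, Measurable (ξ i)) → (∀ i, μ.map (ξ i) = ν) →
      (∀ n : ℤ, ∀ A : Set S, MeasurableSet A →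
        condExp (⨆ (i : ℤ) (_ : i ≤ n), MeasurableSpace.comap (ξ i) mS) μ
          ((ξ (n+1) ⁻¹' A).indicator (fun _ => (1 : ℝ)))
          =ᵐ[μ] fun ω => (Q (ξ n ω) A).toReal) →
      Tendsto (fun n : ℕ => (∫ ω, (∑ i ∈ Finset.Icc 1 n, f (ξ (i : ℤ) ω)) ^ 2 ∂μ) / n)
        atTop (𝓝 v) ∧
      ∀ φ : ℝ → ℝ, Continuous φ → (∃ C : ℝ, ∀ x, |φ x| ≤ C) →
        Tendsto
          (fun n : ℕ => ∫ ω, φ ((∑ i ∈ Finset.Icc 1 n, f (ξ (i : ℤ) ω)) / Real.sqrt n) ∂μ)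
          atTop (𝓝 (∫ x, φ x ∂(gaussianReal 0 v))) :=
  Pool.Agent.N939.ME.main_sq

end Pool.Agent.Results.MP_cd27db_pr.TwoSidedSquareRootCLT
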